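import Mathlib

/-!
# MP_7b40b5_an : balanced pairs of a Pisot substitution and its reversal

A counterexample on three letters.
-/

namespace Pool.Agent.Results.MP_7b40b5_an.ReversalBalancedPairs

open Polynomial

section definitions

variable {A : Type} [DecidableEq A]

/-- The extension of a substitution to finite words. -/
def applyWord (σ : A → List A) (w : List A) : List A := w.flatMap σ

/-- The incidence matrix: the entry `(i, j)` is the number of occurrences of `i` in `σ j`. -/
def incidence (σ : A → List A) : Matrix A A ℚ := fun i j => ((σ j).count i : ℚ)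

/-- The reversal of a substitution. -/
def reversal (σ : A → List A) : A → List A := fun i => (σ i).reverse

/-- `σ` is a unimodular irreducible Pisot substitution: `|det M| = 1`, the characteristic
polynomial `p` of `M` is irreducible over `ℚ`, and `M` has a real eigenvalue `l > 1` all other
eigenvalues (these are the other conjugates of `l`) having modulus `< 1`. -/
def IsUnimodularIrreduciblePisot [Fintype A] (σ : A → List A) : Prop :=
  |(incidence σ).det| = 1 ∧ Irreducible (incidence σ).charpoly ∧
    ∃ l : ℝ, 1 < l ∧ aeval l (incidence σ).charpoly = 0 ∧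
      ∀ z : ℂ, aeval z (incidence σ).charpoly = 0 → z ≠ (l : ℂ) → ‖z‖ < 1

/-- The prefix of length `n` of an infinite word. -/
def pre (u : ℕ → A) (n : ℕ) : List A := (List.range n).map u

/-- `u` is a one-sided fixed point of the (non-erasing) substitution `σ`: the images of the
prefixes of `u` are prefixes of `u`. -/
def IsFixedPoint (σ : A → List A) (u : ℕ → A) : Prop :=
  ∀ n, applyWord σ (pre u n) = pre u (applyWord σ (pre u n)).length

/-- Two words are balanced: each letter occurs equally often. -/
def Balanced (U V : List A) : Prop := ∀ a, U.count a = V.count a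

/-- Minimal balanced pairs. -/
def IsMinimal (P : List A × List A) : Prop :=
  P.1 ≠ [] ∧ Balanced P.1 P.2 ∧
    ∀ m, 1 ≤ m → m < P.1.length → ¬ Balanced (P.1.take m) (P.2.take m)

/-- `L` is the splitting of the pair `(U, V)` into minimal balanced pairs. -/
def IsSplitting (U V : List A) (L : List (List A × List A)) : Prop :=
  (∀ P ∈ L, IsMinimal P) ∧ (L.map Prod.fst).flatten = U ∧ (L.map Prod.snd).flatten = V

/-- The initial pair: the prefixes of least balanced common length `n ≥ 1`. -/
def IsInitialPair (u v : ℕ → A) (P : List A × List A) : Prop :=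
  ∃ n, IsLeast {n | 1 ≤ n ∧ Balanced (pre u n) (pre v n)} n ∧ P = (pre u n, pre v n)

/-- The minimal balanced pairs reachable from `P0`. -/
inductive Reachable (σ τ : A → List A) (P0 : List A × List A) : List A × List A → Prop
  | init : Reachable σ τ P0 P0
  | step {P Q : List A × List A} {L : List (List A × List A)} : Reachable σ τ P0 P →
      IsSplitting (applyWord σ P.1) (applyWord τ P.2) L → Q ∈ L → Reachable σ τ P0 Q

/-- The set `B` of all reachable minimal balanced pairs. -/
def reachSet (σ τ : A → List A) (P0 : List A × List A) : Set (List A × List A) :=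
  {P | Reachable σ τ P0 P}

open Classical in
/-- The splitting of a pair into minimal balanced pairs (see `isSplitting_unique`). -/
noncomputable def splitting (U V : List A) : List (List A × List A) :=
  Classical.epsilon (IsSplitting U V)

/-- The incidence matrix of the substitution `P ↦ P_1 ⋯ P_r` on the alphabet `B`. -/
noncomputable def pairMatrix (σ τ : A → List A) (P0 : List A × List A) :
    Matrix (reachSet σ τ P0) (reachSet σ τ P0) ℚ :=
  fun P Q => ((splitting (applyWord σ Q.1.1) (applyWord τ Q.1.2)).count P.1 : ℚ)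

end definitions

section general

variable {A : Type} [DecidableEq A]

theorem Balanced.length {U V : List A} (h : Balanced U V) : U.length = V.length := by
  have : U.Perm V := List.perm_iff_count.2 h
  exact this.length_eq

/-- The splitting is unique. -/
theorem isSplitting_unique {L L' : List (List A × List A)} {U V : List A}
    (h : IsSplitting U V L) (h' : IsSplitting U V L') : L = L' := by
  induction L generalizing L' U V with
  | nil =>
    obtain ⟨-, h1, h2⟩ := h
    obtain ⟨g0, g1, g2⟩ := h'
    cases L' with
    | nil => rfl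
    | cons P L' =>
      exfalso
      have hU : U = [] := by rw [← h1]; rfl
      rw [hU] at g1
      have := (g0 P (by simp)).1
      simp at g1
      exact this g1.1
  | cons P L ih =>
    obtain ⟨h0, h1, h2⟩ := h
    obtain ⟨g0, g1, g2⟩ := h'
    cases L' with
    | nil =>
      exfalso
      have hU : U = [] := by rw [← g1]; rfl
      rw [hU] at h1
      have := (h0 P (by simp)).1
      simp at h1
      exact this h1.1
    | cons P' L' =>
      obtain ⟨m1, m2, m3⟩ := h0 P (by simp)
      obtain ⟨m1', m2', m3'⟩ := g0 P' (by simp)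
      simp only [List.map_cons, List.flatten_cons] at h1 h2 g1 g2
      have e1 : P.1 ++ (L.map Prod.fst).flatten = P'.1 ++ (L'.map Prod.fst).flatten := by
        rw [h1, g1]
      have e2 : P.2 ++ (L.map Prod.snd).flatten = P'.2 ++ (L'.map Prod.snd).flatten := by
        rw [h2, g2]
      have hlen : P.1.length = P'.1.length := by
        rcases lt_trichotomy P.1.length P'.1.length with hlt | heq | hgt
        · exfalso
          apply m3' P.1.length (List.length_pos_iff.2 m1) hlt
          have t1 : P'.1.take P.1.length = P.1 := by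
            have := congrArg (List.take P.1.length) e1
            rw [List.take_left', List.take_append_of_le_length hlt.le] at this
            · exact this.symm
            · rfl
          have t2 : P'.2.take P.1.length = P.2 := by
            have := congrArg (List.take P.1.length) e2
            rw [List.take_left' m2.length.symm, List.take_append_of_le_length] at this
            · exact this.symm
            · rw [← m2'.length]; exact hlt.le
          rw [t1, t2]
          exact m2
        · exact heq
        · exfalso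
          apply m3 P'.1.length (List.length_pos_iff.2 m1') hgt
          have t1 : P.1.take P'.1.length = P'.1 := by
            have := congrArg (List.take P'.1.length) e1
            rw [List.take_append_of_le_length hgt.le, List.take_left'] at this
            · exact this
            · rfl
          have t2 : P.2.take P'.1.length = P'.2 := by
            have := congrArg (List.take P'.1.length) e2
            rw [List.take_append_of_le_length, List.take_left' m2'.length.symm] at this
            · exact this
            · rw [← m2.length]; exact hgt.le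
          rw [t1, t2]
          exact m2'
      obtain ⟨a1, b1⟩ := List.append_inj e1 hlen
      obtain ⟨a2, b2⟩ := List.append_inj e2 (by rw [← m2.length, ← m2'.length, hlen])
      have hP : P = P' := Prod.ext a1 a2
      have := ih (L' := L') (U := (L.map Prod.fst).flatten) (V := (L.map Prod.snd).flatten)
        ⟨fun Q hQ => h0 Q (by simp [hQ]), rfl, rfl⟩
        ⟨fun Q hQ => g0 Q (by simp [hQ]), b1.symm, b2.symm⟩
      rw [hP, this]

theorem splitting_eq {L : List (List A × List A)} {U V : List A} (h : IsSplitting U V L) :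
    splitting U V = L :=
  isSplitting_unique (Classical.epsilon_spec (p := IsSplitting U V) ⟨L, h⟩) h

omit [DecidableEq A] in
theorem applyWord_append (σ : A → List A) (u v : List A) :
    applyWord σ (u ++ v) = applyWord σ u ++ applyWord σ v := by
  simp [applyWord]

omit [DecidableEq A] in
theorem applyWord_length (σ : A → List A) (hσ : ∀ a, σ a ≠ []) (u : List A) :
    u.length ≤ (applyWord σ u).length := by
  induction u with
  | nil => simp
  | cons a u ih =>
    have h1 : 0 < (σ a).length := List.length_pos_iff.2 (hσ a)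
    have e : applyWord σ (a :: u) = σ a ++ applyWord σ u := by simp [applyWord]
    rw [e, List.length_append, List.length_cons]
    omega

/-- Existence of fixed points. -/
theorem exists_fixedPoint (σ : A → List A) (hσ : ∀ a, σ a ≠ []) (a : A) (t : List A)
    (ht : t ≠ []) (ha : σ a = a :: t) : ∃ u : ℕ → A, IsFixedPoint σ u ∧
      pre u (a :: t).length = a :: t := by
  let w : ℕ → List A := fun m => (applyWord σ)^[m] [a]
  have hw1 : w 1 = a :: t := by
    show applyWord σ [a] = a :: t
    simp [applyWord, ha]
  have hsucc : ∀ m, w (m + 1) = applyWord σ (w m) := fun m =>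
    Function.iterate_succ_apply' _ _ _
  have happ : ∀ m, ∀ x y : List A, (applyWord σ)^[m] (x ++ y) =
      (applyWord σ)^[m] x ++ (applyWord σ)^[m] y := by
    intro m
    induction m with
    | zero => intro x y; rfl
    | succ m ih =>
      intro x y
      rw [Function.iterate_succ_apply, Function.iterate_succ_apply, Function.iterate_succ_apply,
        applyWord_append, ih]
  have hlenit : ∀ m, ∀ x : List A, x.length ≤ ((applyWord σ)^[m] x).length := by
    intro m
    induction m with
    | zero => intro x; exact le_refl _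
    | succ m ih =>
      intro x
      rw [Function.iterate_succ_apply]
      exact (applyWord_length σ hσ x).trans (ih _)
  have hstep : ∀ m, w (m + 1) = w m ++ (applyWord σ)^[m] t := by
    intro m
    have : w (m + 1) = (applyWord σ)^[m] (applyWord σ [a]) := Function.iterate_succ_apply _ _ _
    rw [this]
    have e : applyWord σ [a] = [a] ++ t := by simp [applyWord, ha]
    rw [e, happ]
  have hlen : ∀ m, m + 1 ≤ (w m).length := by
    intro m
    induction m with
    | zero => simp [w]
    | succ m ih =>
      rw [hstep, List.length_append]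
      have := hlenit m t
      have h1 : 0 < t.length := List.length_pos_iff.2 ht
      omega
  have hpre : ∀ m d, w m <+: w (m + d) := by
    intro m d
    induction d with
    | zero => exact List.prefix_refl _
    | succ d ih =>
      rw [← add_assoc, hstep]
      exact ih.trans (List.prefix_append _ _)
  let u : ℕ → A := fun n => (w n)[n]'(hlen n)
  have hget : ∀ m n, (hn : n < (w m).length) → (w m)[n] = u n := by
    intro m n hn
    rcases le_total m n with h | h
    · obtain ⟨d, rfl⟩ := Nat.exists_eq_add_of_le h
      exact (hpre m d).getElem hn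
    · obtain ⟨d, rfl⟩ := Nat.exists_eq_add_of_le h
      exact ((hpre n d).getElem (hlen n)).symm
  have htake : ∀ m n, n ≤ (w m).length → pre u n = (w m).take n := by
    intro m n hn
    apply List.ext_getElem
    · simp [pre, hn]
    · intro i h1 h2
      simp only [pre, List.getElem_map, List.getElem_range, List.getElem_take]
      rw [hget m i (by simp [pre] at h1; omega)]
  refine ⟨u, ?_, ?_⟩
  · intro n
    have h1 : pre u n <+: w n := by
      rw [htake n n (by have := hlen n; omega)]
      exact List.take_prefix _ _
    obtain ⟨r, hr⟩ := h1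
    have h2 : applyWord σ (pre u n) <+: w (n + 1) := by
      rw [hsucc, ← hr, applyWord_append]
      exact List.prefix_append _ _
    rw [htake (n + 1) _ h2.length_le]
    exact (List.prefix_iff_eq_take.1 h2)
  · rw [htake 1 _ (by rw [hw1]), hw1, List.take_length]

end general

/-! ### The example -/

/-- `0 ↦ 1`, `1 ↦ 12`, `2 ↦ 012`. -/
def sig : Fin 3 → List (Fin 3) := ![[1], [1, 2], [0, 1, 2]]

theorem sig_ne (a : Fin 3) : sig a ≠ [] := by
  fin_cases a <;> decide

theorem reversal_sig_ne (a : Fin 3) : reversal sig a ≠ [] := by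
  fin_cases a <;> decide

theorem incidence_sig : incidence sig = !![0, 0, 1; 1, 1, 1; 0, 1, 1] := by
  have h : ∀ i j : Fin 3, (sig j).count i =
      (![![0, 0, 1], ![1, 1, 1], ![0, 1, 1]] : Fin 3 → Fin 3 → ℕ) i j := by decide
  ext i j
  show ((sig j).count i : ℚ) = _
  rw [h i j]
  fin_cases i <;> fin_cases j <;> simp

theorem charpoly_sig : (incidence sig).charpoly = X ^ 3 - 2 * X ^ 2 - 1 := by
  rw [incidence_sig, Matrix.charpoly, Matrix.det_fin_three]
  simp [Matrix.charmatrix, Matrix.diagonal]
  ring

theorem C_two : (C 2 : ℚ[X]) = 2 := rfl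

theorem poly_eq : (X ^ 3 - 2 * X ^ 2 - 1 : ℚ[X]) =
    C 1 * X ^ 3 + C (-2) * X ^ 2 + C 0 * X + C (-1) := by
  simp [C_two]
  ring

theorem natDegree_poly : (X ^ 3 - 2 * X ^ 2 - 1 : ℚ[X]).natDegree = 3 := by
  rw [poly_eq]
  exact natDegree_cubic one_ne_zero

theorem monic_poly : (X ^ 3 - 2 * X ^ 2 - 1 : ℚ[X]).Monic := by
  rw [← charpoly_sig]
  exact Matrix.charpoly_monic _

theorem no_rational_root (r : ℚ) : r ^ 3 - 2 * r ^ 2 - 1 ≠ 0 := by
  intro h
  -- `r` is an integer
  have hint : ∃ n : ℤ, (n : ℚ) = r := by
    have hmon : (X ^ 3 - 2 * X ^ 2 - 1 : ℤ[X]).Monic := by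
      have : (X ^ 3 - 2 * X ^ 2 - 1 : ℤ[X]) = C 1 * X ^ 3 + C (-2) * X ^ 2 + C 0 * X + C (-1) := by
        simp
        ring
      rw [this]
      exact leadingCoeff_cubic one_ne_zero
    have hr : aeval r (X ^ 3 - 2 * X ^ 2 - 1 : ℤ[X]) = 0 := by
      simpa [map_ofNat] using h
    obtain ⟨n, hn⟩ := isInteger_of_is_root_of_monic hmon hr
    exact ⟨n, by simpa using hn⟩
  obtain ⟨n, rfl⟩ := hint
  have h' : n ^ 3 - 2 * n ^ 2 - 1 = 0 := by exact_mod_cast h
  have h2 : n ^ 2 * (n - 2) = 1 := by linarith
  have h3 : n ^ 2 = 1 ∨ n ^ 2 = -1 := Int.isUnit_iff.1 (IsUnit.of_mul_eq_one _ h2)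
  rcases h3 with h3 | h3
  · rw [h3] at h2
    have : n = 3 := by linarith
    subst this
    norm_num at h3
  · nlinarith [sq_nonneg n]

theorem irreducible_poly : Irreducible (X ^ 3 - 2 * X ^ 2 - 1 : ℚ[X]) := by
  rw [monic_poly.irreducible_iff_roots_eq_zero_of_degree_le_three
    (by rw [natDegree_poly]; norm_num) (by rw [natDegree_poly])]
  rw [Multiset.eq_zero_iff_forall_notMem]
  intro r hr
  have := (mem_roots'.1 hr).2
  rw [IsRoot.def] at this
  simp at this
  exact no_rational_root r this

theorem pisot_sig : IsUnimodularIrreduciblePisot sig := by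
  refine ⟨?_, ?_, ?_⟩
  · rw [incidence_sig, Matrix.det_fin_three]
    simp
  · rw [charpoly_sig]
    exact irreducible_poly
  · rw [charpoly_sig]
    -- the root between 2 and 2.3
    have hcont : ContinuousOn (fun t : ℝ => t ^ 3 - 2 * t ^ 2 - 1) (Set.Icc 2 2.3) := by
      fun_prop
    have hmem : (0 : ℝ) ∈ Set.Icc ((fun t : ℝ => t ^ 3 - 2 * t ^ 2 - 1) 2)
        ((fun t : ℝ => t ^ 3 - 2 * t ^ 2 - 1) 2.3) := by
      constructor <;> norm_num
    obtain ⟨l, ⟨hl2, hl3⟩, hl⟩ := intermediate_value_Icc (by norm_num) hcont hmem
    simp only at hl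
    refine ⟨l, by linarith, by simpa [map_ofNat] using hl, ?_⟩
    intro z hz hne
    have hz' : z ^ 3 - 2 * z ^ 2 - 1 = 0 := by simpa [map_ofNat] using hz
    have hlc : (l : ℂ) ^ 3 - 2 * (l : ℂ) ^ 2 - 1 = 0 := by exact_mod_cast hl
    have hfac : (z - l) * (z ^ 2 + (l - 2) * z + l * (l - 2)) = 0 := by
      have : (z - l) * (z ^ 2 + (l - 2) * z + l * (l - 2)) =
        (z ^ 3 - 2 * z ^ 2 - 1) - ((l : ℂ) ^ 3 - 2 * (l : ℂ) ^ 2 - 1) := by ring
      rw [this, hz', hlc, sub_zero]
    have hq : z ^ 2 = -((l - 2) * z + l * (l - 2)) := by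
      rcases mul_eq_zero.1 hfac with h | h
      · exact absurd (sub_eq_zero.1 h) hne
      · linear_combination h
    have hn : ‖z‖ ^ 2 ≤ (l - 2) * ‖z‖ + l * (l - 2) := by
      rw [← norm_pow, hq, norm_neg]
      refine (norm_add_le _ _).trans ?_
      have h1 : ‖((l : ℂ) - 2) * z‖ = (l - 2) * ‖z‖ := by
        rw [norm_mul]
        congr 1
        have : ((l : ℂ) - 2) = ((l - 2 : ℝ) : ℂ) := by push_cast; ring
        rw [this, Complex.norm_real, Real.norm_eq_abs, abs_of_nonneg (by linarith)]
      have h2 : ‖(l : ℂ) * ((l : ℂ) - 2)‖ = l * (l - 2) := by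
        have : (l : ℂ) * ((l : ℂ) - 2) = ((l * (l - 2) : ℝ) : ℂ) := by push_cast; ring
        rw [this, Complex.norm_real, Real.norm_eq_abs, abs_of_nonneg (by nlinarith)]
      rw [h1, h2]
    by_contra hcon
    push Not at hcon
    have hl4 : l * (l - 2) ≤ 0.69 := by nlinarith
    have : (l - 2) * ‖z‖ ≤ 0.3 * ‖z‖ := mul_le_mul_of_nonneg_right (by linarith) (norm_nonneg _)
    nlinarith

def pA : List (Fin 3) × List (Fin 3) := ([1, 2], [2, 1])
def pZ : List (Fin 3) × List (Fin 3) := ([0], [0])
def pO : List (Fin 3) × List (Fin 3) := ([1], [1])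

instance (U V : List (Fin 3)) : Decidable (Balanced U V) := by
  unfold Balanced; infer_instance

theorem minimal_pA : IsMinimal pA := by
  refine ⟨by decide, by decide, ?_⟩
  intro m h1 h2
  have : m = 1 := by
    have : pA.1.length = 2 := rfl
    omega
  subst this
  decide

theorem minimal_pZ : IsMinimal pZ := by
  refine ⟨by decide, by decide, ?_⟩
  intro m h1 h2
  have : pZ.1.length = 1 := rfl
  omega

theorem minimal_pO : IsMinimal pO := by
  refine ⟨by decide, by decide, ?_⟩
  intro m h1 h2
  have : pO.1.length = 1 := rfl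
  omega

theorem split_A : IsSplitting (applyWord sig pA.1) (applyWord (reversal sig) pA.2)
    [pA, pZ, pA] := by
  refine ⟨?_, by decide, by decide⟩
  intro P hP
  simp only [List.mem_cons, List.not_mem_nil, or_false] at hP
  rcases hP with rfl | rfl | rfl
  · exact minimal_pA
  · exact minimal_pZ
  · exact minimal_pA

theorem split_Z : IsSplitting (applyWord sig pZ.1) (applyWord (reversal sig) pZ.2) [pO] := by
  refine ⟨?_, by decide, by decide⟩
  intro P hP
  rw [List.mem_singleton] at hP
  rw [hP]
  exact minimal_pO

theorem split_O : IsSplitting (applyWord sig pO.1) (applyWord (reversal sig) pO.2) [pA] := by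
  refine ⟨?_, by decide, by decide⟩
  intro P hP
  rw [List.mem_singleton] at hP
  rw [hP]
  exact minimal_pA

theorem reachable_iff (P : List (Fin 3) × List (Fin 3)) :
    P ∈ reachSet sig (reversal sig) pA ↔ P = pA ∨ P = pZ ∨ P = pO := by
  constructor
  · intro h
    have h' : Reachable sig (reversal sig) pA P := h
    induction h' with
    | init => exact Or.inl rfl
    | step hP hL hQ ih =>
      rcases ih hP with rfl | rfl | rfl
      · rw [isSplitting_unique hL split_A] at hQ
        simp only [List.mem_cons, List.not_mem_nil, or_false] at hQ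
        tauto
      · rw [isSplitting_unique hL split_Z, List.mem_singleton] at hQ
        exact Or.inr (Or.inr hQ)
      · rw [isSplitting_unique hL split_O, List.mem_singleton] at hQ
        exact Or.inl hQ
  · have hA : Reachable sig (reversal sig) pA pA := Reachable.init
    have hZ : Reachable sig (reversal sig) pA pZ := Reachable.step hA split_A (by simp)
    have hO : Reachable sig (reversal sig) pA pO := Reachable.step hZ split_Z (by simp)
    rintro (rfl | rfl | rfl)
    · exact hA
    · exact hZ
    · exact hO

/-- Enumeration of the reachable pairs. -/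
def enum : Fin 3 → reachSet sig (reversal sig) pA :=
  ![⟨pA, (reachable_iff _).2 (Or.inl rfl)⟩, ⟨pZ, (reachable_iff _).2 (Or.inr (Or.inl rfl))⟩,
    ⟨pO, (reachable_iff _).2 (Or.inr (Or.inr rfl))⟩]

theorem enum_bij : Function.Bijective enum := by
  constructor
  · intro i j h
    have h' : (enum i).1 = (enum j).1 := congrArg Subtype.val h
    fin_cases i <;> fin_cases j <;> first | rfl | (exfalso; revert h'; decide)
  · rintro ⟨P, hP⟩
    rcases (reachable_iff P).1 hP with rfl | rfl | rfl
    · exact ⟨0, rfl⟩
    · exact ⟨1, rfl⟩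
    · exact ⟨2, rfl⟩

noncomputable def enumEquiv : Fin 3 ≃ reachSet sig (reversal sig) pA :=
  Equiv.ofBijective enum enum_bij

theorem pairMatrix_reindex :
    (pairMatrix sig (reversal sig) pA).submatrix enumEquiv enumEquiv =
      !![2, 0, 1; 1, 0, 0; 0, 1, 0] := by
  have hA : splitting (applyWord sig pA.1) (applyWord (reversal sig) pA.2) = [pA, pZ, pA] :=
    splitting_eq split_A
  have hZ : splitting (applyWord sig pZ.1) (applyWord (reversal sig) pZ.2) = [pO] :=
    splitting_eq split_Z
  have hO : splitting (applyWord sig pO.1) (applyWord (reversal sig) pO.2) = [pA] :=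
    splitting_eq split_O
  ext i j
  show ((splitting (applyWord sig (enum j).1.1)
    (applyWord (reversal sig) (enum j).1.2)).count (enum i).1 : ℚ) = _
  have e0 : (enum 0).1 = pA := rfl
  have e1 : (enum 1).1 = pZ := rfl
  have e2 : (enum 2).1 = pO := rfl
  have c1 : ∀ P, List.count P [pA, pZ, pA] = (if P = pA then 2 else 0) + (if P = pZ then 1 else 0) := by
    intro P
    rw [List.count_cons, List.count_cons, List.count_cons, List.count_nil]
    by_cases h1 : P = pA
    · subst h1; decide
    · by_cases h2 : P = pZ
      · subst h2; decide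
      · have h1' : (pA == P) = false := by simpa using fun h => h1 h.symm
        have h2' : (pZ == P) = false := by simpa using fun h => h2 h.symm
        simp [h1, h2, h1', h2']
  fin_cases j
  · show ((splitting (applyWord sig (enum 0).1.1)
      (applyWord (reversal sig) (enum 0).1.2)).count (enum i).1 : ℚ) = _
    rw [e0, hA, c1]
    fin_cases i
    · show (((if (enum 0).1 = pA then 2 else 0) + (if (enum 0).1 = pZ then 1 else 0) : ℕ) : ℚ) = 2
      rw [e0, if_pos rfl, if_neg (by decide)]; norm_num
    · show (((if (enum 1).1 = pA then 2 else 0) + (if (enum 1).1 = pZ then 1 else 0) : ℕ) : ℚ) = 1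
      rw [e1, if_pos rfl, if_neg (by decide)]; norm_num
    · show (((if (enum 2).1 = pA then 2 else 0) + (if (enum 2).1 = pZ then 1 else 0) : ℕ) : ℚ) = 0
      rw [e2, if_neg (by decide), if_neg (by decide)]; norm_num
  · show ((splitting (applyWord sig (enum 1).1.1)
      (applyWord (reversal sig) (enum 1).1.2)).count (enum i).1 : ℚ) = _
    rw [e1, hZ]
    fin_cases i
    · show ((List.count (enum 0).1 [pO] : ℕ) : ℚ) = 0
      rw [e0, show List.count pA [pO] = 0 by decide]; norm_num
    · show ((List.count (enum 1).1 [pO] : ℕ) : ℚ) = 0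
      rw [e1, show List.count pZ [pO] = 0 by decide]; norm_num
    · show ((List.count (enum 2).1 [pO] : ℕ) : ℚ) = 1
      rw [e2, show List.count pO [pO] = 1 by decide]; norm_num
  · show ((splitting (applyWord sig (enum 2).1.1)
      (applyWord (reversal sig) (enum 2).1.2)).count (enum i).1 : ℚ) = _
    rw [e2, hO]
    fin_cases i
    · show ((List.count (enum 0).1 [pA] : ℕ) : ℚ) = 1
      rw [e0, show List.count pA [pA] = 1 by decide]; norm_num
    · show ((List.count (enum 1).1 [pA] : ℕ) : ℚ) = 0
      rw [e1, show List.count pZ [pA] = 0 by decide]; norm_num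
    · show ((List.count (enum 2).1 [pA] : ℕ) : ℚ) = 0
      rw [e2, show List.count pO [pA] = 0 by decide]; norm_num

noncomputable instance fintypeReach : Fintype (reachSet sig (reversal sig) pA) :=
  Fintype.ofEquiv _ enumEquiv

theorem charpoly_pair [Fintype (reachSet sig (reversal sig) pA)]
    [DecidableEq (reachSet sig (reversal sig) pA)] :
    (pairMatrix sig (reversal sig) pA).charpoly = X ^ 3 - 2 * X ^ 2 - 1 := by
  have h := Matrix.charpoly_reindex enumEquiv.symm (pairMatrix sig (reversal sig) pA)
  rw [← h]
  have e : Matrix.reindex enumEquiv.symm enumEquiv.symm (pairMatrix sig (reversal sig) pA) =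
      (pairMatrix sig (reversal sig) pA).submatrix enumEquiv enumEquiv := rfl
  rw [e, pairMatrix_reindex, Matrix.charpoly, Matrix.det_fin_three]
  simp [Matrix.charmatrix, Matrix.diagonal, C_two]
  ring

theorem reverse_poly : (X ^ 3 - 2 * X ^ 2 - 1 : ℚ[X]).reverse = 1 - 2 * X - X ^ 3 := by
  have e : (X ^ 3 - 2 * X ^ 2 - 1 : ℚ[X]) =
      C 1 * X ^ 3 + C (-2) * X ^ 2 + C (-1) * X ^ 0 := by
    simp [C_two]
    ring
  rw [reverse, natDegree_poly, e, reflect_add, reflect_add, reflect_C_mul_X_pow,
    reflect_C_mul_X_pow, reflect_C_mul_X_pow]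
  simp [revAt_le, C_two]
  ring

theorem not_dvd_poly {s : ℚ[X]} (hs : s.natDegree = 3) (h1 : s.coeff 1 ≠ 0) :
    ¬ s ∣ (X ^ 3 - 2 * X ^ 2 - 1 : ℚ[X]) := by
  rintro ⟨r, hr⟩
  have hne : (X ^ 3 - 2 * X ^ 2 - 1 : ℚ[X]) ≠ 0 := monic_poly.ne_zero
  have hs0 : s ≠ 0 := by rintro rfl; simp at hs
  have hr0 : r ≠ 0 := by rintro rfl; rw [mul_zero] at hr; exact hne hr
  have hdeg := congrArg natDegree hr
  rw [natDegree_poly, natDegree_mul hs0 hr0, hs] at hdeg
  have hrd : r.natDegree = 0 := by omega
  rw [eq_C_of_natDegree_eq_zero hrd] at hr hr0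
  have hc := congrArg (fun f => coeff f 1) hr
  simp only [coeff_mul_C] at hc
  have h0 : (X ^ 3 - 2 * X ^ 2 - 1 : ℚ[X]).coeff 1 = 0 := by
    rw [poly_eq]
    simp [coeff_one]
  rw [h0] at hc
  rcases mul_eq_zero.1 hc.symm with hc | hc
  · exact h1 hc
  · rw [hc] at hr0; simp at hr0

theorem natDegree_rev : (1 - 2 * X - X ^ 3 : ℚ[X]).natDegree = 3 := by
  have e : (1 - 2 * X - X ^ 3 : ℚ[X]) = C (-1) * X ^ 3 + C 0 * X ^ 2 + C (-2) * X + C 1 := by
    simp [C_two]
    ring
  rw [e]
  exact natDegree_cubic (by norm_num)

theorem natDegree_rev' : (1 + 2 * X + X ^ 3 : ℚ[X]).natDegree = 3 := by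
  have e : (1 + 2 * X + X ^ 3 : ℚ[X]) = C 1 * X ^ 3 + C 0 * X ^ 2 + C 2 * X + C 1 := by
    simp [C_two]
    ring
  rw [e]
  exact natDegree_cubic (by norm_num)

/-- The substitution `0 ↦ 1`, `1 ↦ 12`, `2 ↦ 012` is unimodular irreducible Pisot, the balanced
pair algorithm for it and its reversal is defined and yields a finite set `B` of pairs, and the
characteristic polynomial of `M_Σ` is equal to `p = x^3 - 2x^2 - 1`; it is divisible neither by
the reciprocal `q` of `p` (which differs from `p`) nor by `q(-x)`. -/
theorem result : ∃ σ : Fin 3 → List (Fin 3), (∀ a, σ a ≠ []) ∧ IsUnimodularIrreduciblePisot σ ∧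
    ∃ u v : ℕ → Fin 3, IsFixedPoint σ u ∧ IsFixedPoint (reversal σ) v ∧
    ∃ P0, IsInitialPair u v P0 ∧ ∃ (_ : Fintype (reachSet σ (reversal σ) P0))
      (_ : DecidableEq (reachSet σ (reversal σ) P0)),
      (pairMatrix σ (reversal σ) P0).charpoly = (incidence σ).charpoly ∧
      (incidence σ).charpoly = X ^ 3 - 2 * X ^ 2 - 1 ∧
      (incidence σ).charpoly ≠ (incidence σ).charpoly.reverse ∧
      ¬ (incidence σ).charpoly.reverse ∣ (pairMatrix σ (reversal σ) P0).charpoly ∧
      ¬ (incidence σ).charpoly.reverse.comp (-X) ∣ (pairMatrix σ (reversal σ) P0).charpoly := by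
  classical
  obtain ⟨u, hu, hu'⟩ := exists_fixedPoint sig sig_ne 1 [2] (by decide) rfl
  obtain ⟨v, hv, hv'⟩ := exists_fixedPoint (reversal sig) reversal_sig_ne 2 [1, 0]
    (by decide) rfl
  have hu2 : pre u 2 = [1, 2] := hu'
  have hv3 : pre v 3 = [2, 1, 0] := hv'
  have hv2 : pre v 2 = [2, 1] := by
    have : pre v 2 = (pre v 3).take 2 := by simp [pre, List.range_succ]
    rw [this, hv3]
    rfl
  have hu1 : pre u 1 = [1] := by
    have : pre u 1 = (pre u 2).take 1 := by simp [pre, List.range_succ]
    rw [this, hu2]
    rfl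
  have hv1 : pre v 1 = [2] := by
    have : pre v 1 = (pre v 2).take 1 := by simp [pre, List.range_succ]
    rw [this, hv2]
    rfl
  refine ⟨sig, sig_ne, pisot_sig, u, v, hu, hv, pA, ?_, fintypeReach, Classical.decEq _, ?_⟩
  · refine ⟨2, ⟨⟨by norm_num, ?_⟩, ?_⟩, ?_⟩
    · rw [hu2, hv2]
      decide
    · rintro m ⟨hm1, hm2⟩
      by_contra hcon
      have : m = 1 := by omega
      subst this
      rw [hu1, hv1] at hm2
      revert hm2
      decide
    · rw [hu2, hv2]
      rfl
  · have hch := @charpoly_pair fintypeReach (Classical.decEq _)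
    rw [hch, charpoly_sig, reverse_poly]
    refine ⟨rfl, rfl, ?_, ?_, ?_⟩
    · intro h
      have := congrArg (eval 0) h
      norm_num at this
    · exact not_dvd_poly natDegree_rev (by simp [coeff_X, coeff_one])
    · have e : (1 - 2 * X - X ^ 3 : ℚ[X]).comp (-X) = 1 + 2 * X + X ^ 3 := by
        simp
        ring
      rw [e]
      exact not_dvd_poly natDegree_rev' (by simp [coeff_X, coeff_one])

end Pool.Agent.Results.MP_7b40b5_an.ReversalBalancedPairs
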